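import Mathlib
import Pool.Agent.TH409.SH.Fin2

set_option autoImplicit false

/-!
# Bounded height for sparse points of hyperbolic varieties

Let `X` be a closed subvariety of projective `n`-space over a number field `k`, given by forms `FF`
with coefficients in `𝓞 k`, of degree at most `d` and with sum of the houses of the coefficients at
most `A`.

(a) If `X` is Brody (equivalently Kobayashi) hyperbolic for one embedding of `k` in `ℂ`, then `X`
has no nonconstant rational curve over any number field `K ⊇ k`.

(b) If `X` has no such curve, then for every `r ≥ 1`, all number fields `K ⊇ k`, all `t ∈ K`, all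
exponents `l_1, …, l_r` and all vectors `v_1, …, v_r` with coordinates in `K`: if the point `x` with
homogeneous coordinates `∑ t ^ (l_j) v_j` lies on `X`, then

  `h(x) ≤ (1 + 8 (4 d) ^ r) (d h(v) + log (A r ^ d))`

where `h` is the absolute logarithmic Weil height and `h(v)` is the height of `(v_1 : … : v_r)`.
The bound does not depend on `K`, on the base `t`, which may be any algebraic number, or on the
exponents.  In particular for each number field `K ⊇ k` and each `B` there are only finitely many
points in `X(K)` of this form with `t ∈ K` and `h(v) ≤ B`.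

(c) Conversely, if `X` has a nonconstant rational curve over some number field, then for some `r`
and some fixed exponents and vectors the points of `X` of this form have unbounded height.
-/

namespace Pool.Agent.Results.MP_627a61_nt.BoundedHeight

open NumberField MvPolynomial Pool.Agent.H458.Sp Pool.Agent.TH409.SH

theorem result (k : Type) [Field k] [NumberField k] (n : ℕ)
    (FF : Set (MvPolynomial (Fin (n + 1)) (𝓞 k))) (d : ℕ) (hd : 1 ≤ d) (A : ℝ) (hA : 1 ≤ A)
    (hFF : ∀ F ∈ FF, (∃ e, e ≤ d ∧ F.IsHomogeneous e) ∧ nrm F ≤ A) :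
    (∀ σ : k →+* ℂ,
      BrodyHyperbolic ((MvPolynomial.map (σ.comp (algebraMap (𝓞 k) k))) '' FF) →
      NoRatCurve FF) ∧
    (NoRatCurve FF → ∀ r : ℕ, 1 ≤ r →
      (∀ (K : Type) [Field K] [NumberField K] [Algebra k K] (t : K) (l : Fin r → ℕ)
        (v : Fin r → Fin (n + 1) → K) (x : Fin (n + 1) → K), OnSparse t l v x → IsZero FF x →
        ah K x ≤ (1 + 8 * (4 * d) ^ r) *
          (d * ah K (fun q : Fin r × Fin (n + 1) => v q.1 q.2) + Real.log (A * r ^ d))) ∧
      ∀ (K : Type) [Field K] [NumberField K] [Algebra k K] (B : ℝ),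
        {P : Projectivization K (Fin (n + 1) → K) | ∃ (t : K) (l : Fin r → ℕ)
          (v : Fin r → Fin (n + 1) → K) (x : Fin (n + 1) → K) (h : x ≠ 0),
          P = Projectivization.mk K x h ∧ OnSparse t l v x ∧ IsZero FF x ∧
          ah K (fun q : Fin r × Fin (n + 1) => v q.1 q.2) ≤ B}.Finite) ∧
    (¬ NoRatCurve FF →
      ∃ (r : ℕ) (K : Type) (_ : Field K) (_ : NumberField K) (_ : Algebra k K) (l : Fin r → ℕ)
        (v : Fin r → Fin (n + 1) → K), ∀ B : ℝ, ∃ (t : K) (x : Fin (n + 1) → K),
        OnSparse t l v x ∧ IsZero FF x ∧ B < ah K x) :=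
  ⟨fun σ hyp => brody_noRat σ FF (fun F hF => by
      obtain ⟨⟨e, _, he⟩, _⟩ := hFF F hF
      exact ⟨e, he⟩) hyp,
    fun hno r hr => noRat_main k n FF d hd A hA hFF hno r hr,
    fun h => ratcurve_unbounded k n FF h⟩

end Pool.Agent.Results.MP_627a61_nt.BoundedHeight
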