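import Pool.Agent.TH409.SH.Fin2
import Pool.Agent.TH138.LG.Words2

set_option autoImplicit false

/-!
# Context-free languages of matrix products on hyperbolic varieties

Let `X` be the closed subset of projective `n`-space over a number field `k` given by the forms in
`FF`, and let `σ` be an embedding of `k` in `ℂ`.  A word `a₁ ⋯ a_m` in the letters of an alphabet
`A` represents the point with homogeneous coordinates `M ρ(a₁) ⋯ ρ(a_m) v`, where the `ρ(a)` are
invertible `r × r` matrices, `M` is a matrix with `n + 1` rows, and `v` a vector, over a number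
field `K ⊇ k`.

(1) If `X_σ` is Brody (equivalently Kobayashi) hyperbolic, then `X_σ` contains no nonconstant
rational curve.

(2) `X_σ` contains no nonconstant rational curve if and only if for ALL number fields `K ⊇ k`, odd
primes `p`, all `r` and all `ρ, M, v` as above with `ρ(a)`, `ρ(a)⁻¹` `p`-integral: if all words of a
context-free language represent points of `X`, then all these points are represented by words of the
language of length at most `width ^ (N p ^ (2 [K : ℚ] r ^ 2))`, where `N` is the number of
left-hand sides of rules of the grammar and `width` the largest length of a right-hand side of a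
rule (at least 1).  This bound does not depend on `X`.

(3) Equivalently, for all finite alphabets, all `K, r, ρ, M, v`: a context-free language of
words all of which represent points of `X` represents only finitely many points.
-/

namespace Pool.Agent.Results.MP_627a61_nt.ContextFreeMatrixProducts

open NumberField MvPolynomial Pool.Agent.H458.Sp Pool.Agent.TH717.GO Pool.Agent.TH138.LG

/-- the points of a context-free language on the zero set `X` of `FF` are represented by short
words -/
def ShortWords {n : ℕ} {k : Type} [Field k] (FF : Finset (MvPolynomial (Fin (n + 1)) k)) : Prop :=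
  ∀ (K : Type) [Field K] [NumberField K] [Algebra k K] (p : ℕ) (hp : p.Prime), 3 ≤ p →
    ∀ (r : ℕ) (A : Type) (M : Matrix (Fin (n + 1)) (Fin r) K)
    (ρ : A → Matrix.GeneralLinearGroup (Fin r) K) (v : Fin r → K) (g : ContextFreeGrammar A),
    (∀ a, ρ a ∈ GLp hp r) → OnX FF M ρ v g.language →
    langPts M ρ v g.language = langPts M ρ v {w | w ∈ g.language ∧ w.length ≤
      width g ^ ((inputs g).card * p ^ (2 * Module.finrank ℚ K * r ^ 2))}

/-- context-free languages on the zero set `X` of `FF` give finitely many points -/
def LanguagesFinite {n : ℕ} {k : Type} [Field k] (FF : Finset (MvPolynomial (Fin (n + 1)) k)) :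
    Prop :=
  ∀ (K : Type) [Field K] [NumberField K] [Algebra k K] (r : ℕ) (A : Type) [Finite A]
    (M : Matrix (Fin (n + 1)) (Fin r) K) (ρ : A → Matrix.GeneralLinearGroup (Fin r) K)
    (v : Fin r → K) (g : ContextFreeGrammar A),
    OnX FF M ρ v g.language → (langPts M ρ v g.language).Finite

theorem result (k : Type) [Field k] [NumberField k] (n : ℕ)
    (FF : Finset (MvPolynomial (Fin (n + 1)) k)) (hhom : ∀ F ∈ FF, ∃ e, F.IsHomogeneous e)
    (σ : k →+* ℂ) :
    (BrodyHyperbolic ((MvPolynomial.map σ) '' (FF : Set (MvPolynomial (Fin (n + 1)) k))) →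
      NoRatC σ (FF : Set (MvPolynomial (Fin (n + 1)) k))) ∧
    (NoRatC σ (FF : Set (MvPolynomial (Fin (n + 1)) k)) ↔ ShortWords FF) ∧
    (NoRatC σ (FF : Set (MvPolynomial (Fin (n + 1)) k)) ↔ LanguagesFinite FF) := by
  have h12 : NoRatC σ (FF : Set (MvPolynomial (Fin (n + 1)) k)) → ShortWords FF := by
    intro hno K _ _ _ p hp hp3 r A M ρ v g hρ hX
    have h1 := orb_core (FF : Set (MvPolynomial (Fin (n + 1)) k)) (fun F hF => hhom F hF) 1
      (r * r) (noRat_all σ _ hno ((r * r) * (r * r)))
    exact (langPts_eq (k := k) M ρ v g.language).trans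
      ((words_short (FF : Set (MvPolynomial (Fin (n + 1)) k)) 1 0
        (MvPolynomial.isHomogeneous_one _ _) h1 hp hp3 M ρ hρ v g hX).trans
        (langPts_eq (k := k) M ρ v _).symm)
  have h23 : ShortWords FF → LanguagesFinite FF := by
    intro hb K _ _ _ r A _ M ρ v g hX
    obtain ⟨p, hp, hp3, hρ⟩ := exists_prime_letters ρ
    rw [hb K p hp hp3 r A M ρ v g hρ hX, langPts_eq (k := k)]
    exact wordPts_finite 1 M ρ v _ _
  have h31 : LanguagesFinite FF → NoRatC σ (FF : Set (MvPolynomial (Fin (n + 1)) k)) := by
    intro hf
    by_contra hno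
    obtain ⟨r, K, iK, iN, iA, M, ρ, v, g, hX, hinf⟩ := converse_words_noRat σ FF hno
    exact hinf (hf K r Unit M ρ v g hX)
  refine ⟨fun hyp => ?_, ⟨h12, fun h => h31 (h23 h)⟩, ⟨fun h => h23 (h12 h), h31⟩⟩
  intro q hq i j a b
  refine Pool.Agent.TH409.SH.no_curveC' _ ?_ hyp q ?_ i j a b
  · rintro _ ⟨F, hF, rfl⟩
    obtain ⟨e, he⟩ := hhom F hF
    exact ⟨e, he.map _⟩
  · rintro _ ⟨F, hF, rfl⟩
    rw [aeval_def, MvPolynomial.eval₂_map]
    exact hq F hF

end Pool.Agent.Results.MP_627a61_nt.ContextFreeMatrixProducts
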