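import Mathlib
import Pool.Agent.TH409.SH.Fin2
import Pool.Agent.TH717.GO.Ext

set_option autoImplicit false

/-!
# Orbits of groups of matrices on hyperbolic varieties

Let `X` be the closed subset of projective `n`-space over a number field `k` given by the forms in
`FF`, and let `σ` be an embedding of `k` in `ℂ`.

If `X_σ` is Brody (equivalently Kobayashi) hyperbolic, then `X_σ` contains no nonconstant rational
curve.  The following are equivalent; in (2) to (5) `M` is a matrix with `n + 1` rows and `r` columns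
over `K`, `v` is a vector in `K ^ r`, and all the points with homogeneous coordinates `M ρ(h) v`,
`h ∈ H`, lie on `X`.

(1) `X_σ` contains no nonconstant rational curve.

(2) For ALL number fields `K ⊇ k`, all odd primes `p`, all `r`, all groups `H` and all
representations `ρ : H → GL_r(K)` with `p`-integral entries (for instance `ρ : H → GL_r(𝓞 K)` and
`p = 3`) there are at most `p ^ ([K : ℚ] r ^ 2)` points `M ρ(h) v`.

(3) For ALL fields `K ⊇ k`, all subrings `A` of `K` which have homomorphisms to finite fields `F₁`,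
`F₂` of different characteristics, all `r`, all groups `H` and all `ρ : H → GL_r(A)` there are at
most `|GL_r(F₁)| |GL_r(F₂)|` points `M ρ(h) v`.  (For groups of matrices with rational integer
entries this is `|GL_r(𝔽₂)| |GL_r(𝔽₃)|`, for all `K`, `M` and `v`.)

(4) For ALL number fields `K ⊇ k`, all finitely generated groups `H` and all `ρ : H → GL_r(K)`
there are finitely many points `M ρ(h) v`.

(5) The same as (4) for ALL fields `K ⊇ k`.
-/

namespace Pool.Agent.Results.MP_627a61_nt.LinearGroupOrbits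

open NumberField MvPolynomial Pool.Agent.H458.Sp Pool.Agent.TH717.GO

/-- orbits of groups of matrices with `p`-integral entries on the zero set `X` of `FF` have at most
`p ^ ([K : ℚ] r ^ 2)` points -/
def OrbitBound {n : ℕ} {k : Type} [Field k] (FF : Finset (MvPolynomial (Fin (n + 1)) k)) : Prop :=
  ∀ (K : Type) [Field K] [NumberField K] [Algebra k K] (p : ℕ), p.Prime → 3 ≤ p →
    ∀ (r : ℕ) (H : Type) [Group H] (ρ : H →* Matrix.GeneralLinearGroup (Fin r) K),
    (∀ h i j, PInt p ((ρ h : Matrix (Fin r) (Fin r) K) i j)) →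
    ∀ (M : Matrix (Fin (n + 1)) (Fin r) K) (v : Fin r → K),
    (∀ h, ∀ F ∈ FF, aeval (orb M ρ v h) F = 0) →
    (orbitPts M ρ v).encard ≤ (p ^ (Module.finrank ℚ K * r ^ 2) : ℕ)

/-- orbits of groups of matrices over a ring `A` with residue fields `F₁`, `F₂` of different
characteristics on the zero set `X` of `FF` have at most `|GL_r(F₁)| |GL_r(F₂)|` points -/
def OrbitBoundRes {n : ℕ} {k : Type} [Field k] (FF : Finset (MvPolynomial (Fin (n + 1)) k)) :
    Prop :=
  ∀ (K : Type) [Field K] [Algebra k K] (A : Subring K) (F₁ F₂ : Type) [Field F₁] [Field F₂]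
    [Finite F₁] [Finite F₂] (_ : A →+* F₁) (_ : A →+* F₂), ringChar F₁ ≠ ringChar F₂ →
    ∀ (r : ℕ) (H : Type) [Group H] (ρ : H →* Matrix.GeneralLinearGroup (Fin r) A)
    (M : Matrix (Fin (n + 1)) (Fin r) K) (v : Fin r → K),
    (∀ h, ∀ F ∈ FF, aeval (orb M (ext A ρ) v h) F = 0) →
    (orbitPts M (ext A ρ) v).encard ≤
      (Nat.card (Matrix.GeneralLinearGroup (Fin r) F₁) *
        Nat.card (Matrix.GeneralLinearGroup (Fin r) F₂) : ℕ)

/-- orbits of finitely generated groups of matrices over number fields on the zero set `X` of `FF`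
are finite -/
def OrbitsFinite {n : ℕ} {k : Type} [Field k] (FF : Finset (MvPolynomial (Fin (n + 1)) k)) :
    Prop :=
  ∀ (K : Type) [Field K] [NumberField K] [Algebra k K] (r : ℕ) (H : Type) [Group H],
    Group.FG H → ∀ (ρ : H →* Matrix.GeneralLinearGroup (Fin r) K)
    (M : Matrix (Fin (n + 1)) (Fin r) K) (v : Fin r → K),
    (∀ h, ∀ F ∈ FF, aeval (orb M ρ v h) F = 0) → (orbitPts M ρ v).Finite

/-- orbits of finitely generated groups of matrices over any fields on the zero set `X` of `FF` are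
finite -/
def OrbitsFiniteAll {n : ℕ} {k : Type} [Field k] (FF : Finset (MvPolynomial (Fin (n + 1)) k)) :
    Prop :=
  ∀ (K : Type) [Field K] [Algebra k K] (r : ℕ) (H : Type) [Group H],
    Group.FG H → ∀ (ρ : H →* Matrix.GeneralLinearGroup (Fin r) K)
    (M : Matrix (Fin (n + 1)) (Fin r) K) (v : Fin r → K),
    (∀ h, ∀ F ∈ FF, aeval (orb M ρ v h) F = 0) → (orbitPts M ρ v).Finite

theorem result (k : Type) [Field k] [NumberField k] (n : ℕ)
    (FF : Finset (MvPolynomial (Fin (n + 1)) k)) (hhom : ∀ F ∈ FF, ∃ e, F.IsHomogeneous e)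
    (σ : k →+* ℂ) :
    (BrodyHyperbolic ((MvPolynomial.map σ) '' (FF : Set (MvPolynomial (Fin (n + 1)) k))) →
      NoRatC σ (FF : Set (MvPolynomial (Fin (n + 1)) k))) ∧
    [NoRatC σ (FF : Set (MvPolynomial (Fin (n + 1)) k)), OrbitBound FF, OrbitBoundRes FF,
      OrbitsFinite FF, OrbitsFiniteAll FF].TFAE := by
  refine ⟨fun hyp => ?_, ?_⟩
  · intro q hq i j a b
    refine Pool.Agent.TH409.SH.no_curveC' _ ?_ hyp q ?_ i j a b
    · rintro _ ⟨F, hF, rfl⟩
      obtain ⟨e, he⟩ := hhom F hF
      exact ⟨e, he.map _⟩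
    · rintro _ ⟨F, hF, rfl⟩
      rw [aeval_def, MvPolynomial.eval₂_map]
      exact hq F hF
  · tfae_have 1 → 2 := by
      intro hno K _ _ _ p hp hp3 r H _ ρ hρ M v hX
      rw [orbitPts_eq (k := k)]
      exact main_core FF hhom 1 r (noRat_all σ _ hno (r * r)) K p hp hp3 H ρ hρ M v hX
    tfae_have 1 → 3 := by
      intro hno K _ _ A F₁ F₂ _ _ _ _ φ₁ φ₂ hne r H _ ρ M v hX
      rw [orbitPts_eq (k := k)]
      exact two_core _ hhom 1 (noRat_all σ _ hno (r * r)) A φ₁ φ₂ hne ρ M v hX
    tfae_have 2 → 4 := by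
      intro hb K _ _ _ r H _ hH ρ M v hX
      obtain ⟨p, hp, hp3, hρ⟩ := exists_prime_of_fg hH ρ
      exact Set.finite_of_encard_le_coe (hb K p hp hp3 r H ρ hρ M v hX)
    tfae_have 3 → 5 := by
      intro hb K _ _ r H _ hH ρ M v hX
      have : CharZero K := charZero_of_injective_algebraMap (FaithfulSMul.algebraMap_injective k K)
      rw [orbitPts_eq (k := k)]
      refine finite_of_res (FF : Set (MvPolynomial (Fin (n + 1)) k)) 1 M v ?_ hH ρ hX
      intro A F₁ F₂ _ _ _ _ φ₁ φ₂ hne ρ hX
      rw [← orbitPts_eq (k := k)]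
      exact hb K A F₁ F₂ φ₁ φ₂ hne r H ρ M v hX
    tfae_have 5 → 4 := by
      intro hf K _ _ _ r H _ hH ρ M v hX
      exact hf K r H hH ρ M v hX
    tfae_have 4 → 1 := by
      intro hf
      by_contra hno
      obtain ⟨r, K, iK, iN, iA, ρ, M, v, -, hX, hinf⟩ := converse_noRat σ _ hno
      exact hinf (hf K r (Multiplicative ℤ) inferInstance ρ M v hX)
    tfae_finish

end Pool.Agent.Results.MP_627a61_nt.LinearGroupOrbits
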