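import Mathlib
import Pool.Agent.TH143.TW.Tower
import Pool.Agent.TH143.HE.PCur

/-!
MP_627a61_nt, Q1: hyperbolic varieties and sequences of points given by linear recurrences whose
coefficients are in an iterated extension of the field of constants by solutions of linear
recurrences (for example P-recursive and q-holonomic sequences).
-/

set_option autoImplicit false

namespace Pool.Agent.Results.MP_627a61_nt.TowerHolonomicPoints

open MvPolynomial Filter Pool.Agent.TH143 Pool.Agent.TH143.DE Pool.Agent.TH143.HE
  Pool.Agent.TH143.TW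
open scoped LinearAlgebra.Projectivization

variable {K : Type} [Field K] {N : ℕ}

/-- All nonconstant entire curves in the complex variety `X` lie in `Z`. Here `X` and `Z` are the
projective varieties over `K` given by the forms in `I` and in `I'`. For `I' = ⊤` the variety `Z` is
empty, and this is the (Brody) hyperbolicity of `X`. -/
def Hyperbolic (σ : K →+* ℂ) (I I' : Ideal (MvPolynomial (Fin (N + 1)) K)) : Prop :=
  ∀ f : ℂ → Fin (N + 1) → ℂ, (∀ j, Differentiable ℂ (fun z => f z j)) → (∀ z, f z ≠ 0) →
    (∀ z, IsPtP σ I (f z)) → NonConstC f → ∀ z, IsPtP σ I' (f z)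

/-- All sequences of complex points of `X` outside of `Z`, with homogeneous coordinates which
satisfy linear recurrences over a field of coefficients in a tower, are eventually periodic. -/
def TowerPeriodic (σ : K →+* ℂ) (I I' : Ideal (MvPolynomial (Fin (N + 1)) K)) : Prop :=
  ∀ (B : Subalgebra ℂ (ℕ → ℂ)) (_ : Tow B) (x : ℕ → Fin (N + 1) → ℂ) (hx : ∀ m, x m ≠ 0),
    (∀ j, LinRec B fun m => x m j) → (∀ m, IsPtP σ I (x m)) → (∀ m, ¬ IsPtP σ I' (x m)) →
    ∃ k m0 : ℕ, 0 < k ∧ ∀ m, m0 ≤ m →
      Projectivization.mk ℂ (x (m + k)) (hx (m + k)) = Projectivization.mk ℂ (x m) (hx m)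

theorem mk_eq {x y : Fin (N + 1) → ℂ} (hx : x ≠ 0) (hy : y ≠ 0)
    (h : ∀ i j, x i * y j = x j * y i) :
    Projectivization.mk ℂ x hx = Projectivization.mk ℂ y hy := by
  obtain ⟨k, hk⟩ := Function.ne_iff.1 hy
  have hk' : y k ≠ 0 := hk
  have h1 : x = (x k / y k) • y := by
    funext i
    rw [Pi.smul_apply, smul_eq_mul, div_mul_eq_mul_div, eq_div_iff hk']
    exact h i k
  rw [Projectivization.mk_eq_mk_iff']
  exact ⟨x k / y k, h1.symm⟩

theorem eq_mk {x y : Fin (N + 1) → ℂ} (hx : x ≠ 0) (hy : y ≠ 0)
    (h : Projectivization.mk ℂ x hx = Projectivization.mk ℂ y hy) (i j : Fin (N + 1)) :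
    x i * y j = x j * y i := by
  rw [Projectivization.mk_eq_mk_iff'] at h
  obtain ⟨a, rfl⟩ := h
  simp only [Pi.smul_apply, smul_eq_mul]
  ring

/-- Let `K` be a field (for example a number field), embedded in `ℂ` by `σ`, let `X` and `Z` be the
projective varieties over `K` given by the forms in `I` and `I'`. If all nonconstant entire curves
in `X` lie in `Z` (for
`Z` empty: if `X` is hyperbolic), then all sequences of points of `X` outside of `Z`, with
homogeneous coordinates which satisfy linear recurrences over a field of coefficients in a tower,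
are eventually periodic. This property holds exactly if all rational curves in `X` lie in `Z`. -/
theorem result (σ : K →+* ℂ) (I I' : Ideal (MvPolynomial (Fin (N + 1)) K)) :
    (Hyperbolic σ I I' → TowerPeriodic σ I I') ∧
      (TowerPeriodic σ I I' ↔ RatCurvesIn σ I I') := by
  have h1 : RatCurvesIn σ I I' → TowerPeriodic σ I I' := by
    intro h B hB x hx hrec hX hZ
    obtain ⟨k, m0, hk, hper⟩ := tow_good h hB x (Eventually.of_forall hx) hrec
      (Eventually.of_forall hX) (Eventually.of_forall hZ)
    exact ⟨k, m0, hk, fun m hm => mk_eq _ _ (hper m hm)⟩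
  have h2 : TowerPeriodic σ I I' → RatCurvesIn σ I I' := by
    intro h
    rw [ratCurvesIn_iff]
    intro p hp
    obtain ⟨x, hx, hX, hZ, hrec, hfin⟩ := exists_seq_rat σ hp
    obtain ⟨k, m0, hk, hper⟩ := h RB tow_RB x hx (fun j => (hrec j).linRec) hX hZ
    have h3 : ∀ n : ℕ, Projectivization.mk ℂ (x (m0 + n * k)) (hx _) =
        Projectivization.mk ℂ (x m0) (hx m0) := by
      intro n
      induction n with
      | zero =>
        congr 2
        omega
      | succ n ih =>
        rw [← ih, ← hper (m0 + n * k) (by omega)]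
        congr 2
        ring
    have h4 : (Set.range fun n : ℕ => m0 + n * k) ⊆
        {m | ∀ i j, x m i * x m0 j = x m j * x m0 i} := by
      rintro _ ⟨n, rfl⟩ i j
      exact eq_mk (hx _) (hx _) (h3 n) i j
    refine Set.infinite_range_of_injective ?_ ((hfin (x m0) (hx m0)).subset h4)
    intro a b hab
    have h5 : a * k = b * k := by
      have : m0 + a * k = m0 + b * k := hab
      omega
    exact Nat.eq_of_mul_eq_mul_right hk h5
  refine ⟨fun h => h1 ?_, h2, h1⟩
  have h3 : PEntireCurvesIn σ I I' := fun f hf hne _ h5 h6 => h f hf hne h5 h6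
  exact rat_of_pentire h3

end Pool.Agent.Results.MP_627a61_nt.TowerHolonomicPoints
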